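import Pool.Agent.Q75.BS.Main
import Pool.Agent.Q222.BS.SPR
import Pool.Agent.Q277.BS.COR
import Pool.Agent.Q277.BS.VL
import Pool.Agent.Q68.BS.RL
import Pool.Agent.Q210.BS.Vc
import Pool.Agent.Q210.BS.Hit
import Pool.Agent.Q150.BS.FOL
import Pool.Agent.Q259.BS.VAL
import Pool.Agent.Q176.BS.FIN
import Pool.Agent.Q237.BS.ONE
import Pool.Agent.Q237.BS.APX
import Pool.Agent.Q237.BS.MOD

set_option autoImplicit false

/-!
# Project BS (helper75): conclusions
-/

namespace Pool.Agent.Q75.BS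

open Complex Set MeasureTheory Filter Topology Pool.Agent.W780.PG Pool.Agent.W780.BB
open Pool.Agent.TH103.BL

open scoped Real ComplexConjugate

variable {n : ℕ} {p : Fin (n + 3) → ℂ}

/-- for some `r > 0` and for almost every direction `θ`, near each vertex, closer than `r`, the slice
`f (·, θ)` agrees almost everywhere with a function which is continuous off the line through the
vertex in the direction `θ` -/
def IsContinuousNearVertices (p : Fin (n + 3) → ℂ) (f : ℂ × ℝ → ℝ) : Prop :=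
  ∃ r : ℝ, 0 < r ∧ ∀ᵐ θ : ℝ, ∀ i, ContSlice p f r i θ

/-- for some `q ≥ 1`, `ε > 0`, `C` and `r > 0` the `L^q` modulus of continuity of `f` in the direction
near the vertices is at most `C h ^ (1 + ε)`, see `Modulus` -/
def HasSmallModulus (p : Fin (n + 3) → ℂ) (f : ℂ × ℝ → ℝ) : Prop :=
  ∃ q ε C r : ℝ, 1 ≤ q ∧ 0 < ε ∧ 0 < r ∧ Modulus p f q ε C r

theorem vl : S_VL := Pool.Agent.Q277.BS.t_VL Pool.Agent.Q277.BS.t_COR

theorem vc : S_VC := Pool.Agent.Q210.BS.t_VC Pool.Agent.Q68.BS.t_RL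

theorem val : S_VAL := Pool.Agent.Q259.BS.t_VAL Pool.Agent.Q150.BS.t_FOL Pool.Agent.Q210.BS.t_HIT

theorem md : S_MOD := Pool.Agent.Q237.BS.t_MOD Pool.Agent.Q237.BS.t_APX Pool.Agent.Q237.BS.t_ONE

theorem const_of_cont (hp : IsConvexPolygon p) (hirr : ∀ i, Irrational (ang p i / π))
    {f : ℂ × ℝ → ℝ} (hf : Measurable f) (hI : IsInvariantFun p f)
    (h : IsContinuousNearVertices p f) :
    ∃ a : ℝ, ∀ᵐ x : ℂ × ℝ, x.1 ∈ region p → f x = a := by
  obtain ⟨r, hr, h⟩ := h
  exact main Pool.Agent.Q222.BS.t_SPR vl vc val Pool.Agent.Q176.BS.t_FIN hp hirr hf hI hr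
    (limNear_of_cont hp h)

theorem const_of_mod (hp : IsConvexPolygon p) (hirr : ∀ i, Irrational (ang p i / π))
    {f : ℂ × ℝ → ℝ} (hf : Measurable f) (hI : IsInvariantFun p f) (h : HasSmallModulus p f) :
    ∃ a : ℝ, ∀ᵐ x : ℂ × ℝ, x.1 ∈ region p → f x = a := by
  obtain ⟨q, ε, C, r, hq, hε, hr, h⟩ := h
  refine main_mod Pool.Agent.Q222.BS.t_SPR vl vc val Pool.Agent.Q176.BS.t_FIN md hp hirr hf hI hq hε
    (abs_nonneg C) hr fun i h0 h1 h2 => (h i h0 h1 h2).trans (ENNReal.ofReal_le_ofReal ?_)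
  exact mul_le_mul_of_nonneg_right (le_abs_self C) (Real.rpow_nonneg h1.le _)

/-- if all invariant sets are trivial then all invariant functions are constant -/
theorem const_of_trivial (hp : IsConvexPolygon p)
    (h : ∀ A : Set (ℂ × ℝ), MeasurableSet A → IsInvariant p A → IsTrivial p A)
    {f : ℂ × ℝ → ℝ} (hf : Measurable f) (hI : IsInvariantFun p f) :
    ∃ a : ℝ, ∀ᵐ x : ℂ × ℝ, x.1 ∈ region p → f x = a := by
  have hrr := region_eq hp
  have hopen := reg_open hp
  have hrm : MeasurableSet {x : ℂ × ℝ | x.1 ∈ region p} := by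
    rw [hrr]; exact measurable_fst hopen.measurableSet
  have hphm : MeasurableSet (phase p) := by
    unfold phase
    rw [hrr]
    exact hopen.measurableSet.prod measurableSet_Ico
  obtain ⟨a, ha⟩ := exists_eventuallyEq_const_of_forall_separating
    (l := ae ((volume : Measure (ℂ × ℝ)).restrict (phase p))) (f := f) MeasurableSet
    (fun U hU => by
      have h1 := h (f ⁻¹' U) (hf hU) ⟨fun z θ => by
          show f (z, θ + 2 * π) ∈ U ↔ f (z, θ) ∈ U
          rw [hI.periodic], fun z θ s h1 h2 => by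
          show f (z, θ) ∈ U ↔ f (z + s • dir θ, θ) ∈ U
          rw [hI.free z θ s h1 h2], fun i y hy θ s r h1 h2 h3 h4 => by
          show f (y - s • dir θ, θ) ∈ U ↔ f (y + r • dir (2 * tau p i - θ), 2 * tau p i - θ) ∈ U
          rw [hI.reflect i y hy θ s r h1 h2 h3 h4]⟩
      rcases h1 with h1 | h1
      · right
        rw [ae_restrict_iff' hphm]
        filter_upwards [measure_eq_zero_iff_ae_notMem.1 h1] with x hx h2 h3
        exact hx ⟨h2, h3⟩
      · left
        rw [ae_restrict_iff' hphm]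
        filter_upwards [measure_eq_zero_iff_ae_notMem.1 h1] with x hx h2
        by_contra h3
        exact hx ⟨h2, h3⟩)
  refine ⟨a, ?_⟩
  have ha' : ∀ᵐ x : ℂ × ℝ, x ∈ phase p → f x = a := (ae_restrict_iff' hphm).1 ha
  set S : Set (ℂ × ℝ) := {x | x.1 ∈ region p ∧ f x ≠ a} with hS
  have hSm : MeasurableSet S :=
    hrm.inter ((hf (measurableSet_singleton a)).compl)
  have hSp : ∀ z θ, (z, θ + 2 * π) ∈ S ↔ (z, θ) ∈ S := by
    intro z θ
    simp only [hS, mem_ofPred_eq, hI.periodic z θ]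
  have h0 : volume (S ∩ (univ ×ˢ Ico 0 (2 * π))) = 0 := by
    refine measure_eq_zero_iff_ae_notMem.2 ?_
    filter_upwards [ha'] with x hx
    rintro ⟨⟨h1, h2⟩, -, h3⟩
    exact h2 (hx ⟨h1, h3⟩)
  filter_upwards [measure_eq_zero_iff_ae_notMem.1 (null_of_period hSm hSp h0)] with x hx h1
  by_contra h2
  exact hx ⟨h1, h2⟩

theorem cont_of_const {f : ℂ × ℝ → ℝ} {a : ℝ}
    (h : ∀ᵐ x : ℂ × ℝ, x.1 ∈ region p → f x = a) : IsContinuousNearVertices p f := by
  refine ⟨1, one_pos, ?_⟩
  filter_upwards [ae_swap h] with θ hθ i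
  refine ⟨fun _ => a, continuousOn_const, ?_⟩
  filter_upwards [hθ] with z hz h2 _
  exact hz h2

theorem iff_ergodic (hp : IsConvexPolygon p) (hirr : ∀ i, Irrational (ang p i / π)) :
    (∀ A : Set (ℂ × ℝ), MeasurableSet A → IsInvariant p A → IsTrivial p A) ↔
      ∀ f : ℂ × ℝ → ℝ, Measurable f → IsInvariantFun p f → IsContinuousNearVertices p f := by
  classical
  constructor
  · intro h f hf hI
    obtain ⟨a, ha⟩ := const_of_trivial hp h hf hI
    exact cont_of_const ha
  · intro h A hA hI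
    have hm : Measurable (A.indicator fun _ => (1 : ℝ)) := measurable_const.indicator hA
    obtain ⟨a, ha⟩ := const_of_cont hp hirr hm (ind_inv hI) (h _ hm (ind_inv hI))
    by_cases h1 : a = 1
    · right
      refine measure_eq_zero_iff_ae_notMem.2 ?_
      filter_upwards [ha] with x hx
      rintro ⟨h2, h3⟩
      have h4 := hx h2.1
      rw [indicator_of_notMem h3, h1] at h4
      exact zero_ne_one h4
    · left
      refine measure_eq_zero_iff_ae_notMem.2 ?_
      filter_upwards [ha] with x hx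
      rintro ⟨h2, h3⟩
      have h4 := hx h2.1
      rw [indicator_of_mem h3] at h4
      exact h1 h4.symm

end Pool.Agent.Q75.BS
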