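import Pool.Agent.Q75.BS.Stm

set_option autoImplicit false

/-!
# Project BS (helper75): assembly
-/

namespace Pool.Agent.Q75.BS

open Complex Set MeasureTheory Filter Topology Pool.Agent.W780.PG Pool.Agent.W780.BB
open Pool.Agent.TH103.BL

open scoped Real ComplexConjugate

variable {n : ℕ} {p : Fin (n + 3) → ℂ}

theorem main (hSPR : S_SPR) (hVL : S_VL) (hVC : S_VC) (hVAL : S_VAL) (hFIN : S_FIN)
    (hp : IsConvexPolygon p) (hirr : ∀ i, Irrational (ang p i / π)) {f : ℂ × ℝ → ℝ}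
    (hf : Measurable f) (hI : IsInvariantFun p f) {r : ℝ} (hr : 0 < r) (h : LimNear p f r) :
    ∃ a : ℝ, ∀ᵐ x : ℂ × ℝ, x.1 ∈ region p → f x = a := by
  have hall := hSPR n p hp f hI r hr h
  have hv := hVL n p hp f hI hall
  have hc : ∀ i, ∃ c, ∀ᵐ θ : ℝ, VLim p (sli f θ) i c := by
    intro i
    refine hVC n p hp f hf hI i (hirr i) ?_
    filter_upwards [hv] with θ hθ using hθ i
  choose c hc using hc
  exact hFIN n p hp f hf c (hVAL n p hp f hI hall c hc) hc

/-- the slice `f (·, θ)` agrees almost everywhere near the vertex `p i`, closer than `r`, with a function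
which is continuous off the line through `p i` in the direction `θ` -/
def ContSlice (p : Fin (n + 3) → ℂ) (f : ℂ × ℝ → ℝ) (r : ℝ) (i : Fin (n + 3)) (θ : ℝ) : Prop :=
  ∃ F : ℂ → ℝ, ContinuousOn F {z | z ∈ region p ∧ ‖z - p i‖ < r ∧ sd p i (z, θ) ≠ 0} ∧
    ∀ᵐ z : ℂ, z ∈ region p → ‖z - p i‖ < r → f (z, θ) = F z

theorem limNear_of_cont (hp : IsConvexPolygon p) {f : ℂ × ℝ → ℝ} {r : ℝ}
    (h : ∀ᵐ θ : ℝ, ∀ i, ContSlice p f r i θ) : LimNear p f r := by
  have hrr := region_eq hp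
  filter_upwards [h] with θ hθ z hz i hi hsd
  obtain ⟨F, hF, hae⟩ := hθ i
  have hopen : IsOpen {z | z ∈ region p ∧ ‖z - p i‖ < r ∧ sd p i (z, θ) ≠ 0} := by
    rw [hrr]
    refine (reg_open hp).inter (IsOpen.inter ?_ ?_)
    · exact isOpen_lt ((continuous_id.sub continuous_const).norm) continuous_const
    · exact isOpen_ne.preimage ((sd_cont p i).comp (continuous_id.prodMk continuous_const))
  have hzm : z ∈ {z | z ∈ region p ∧ ‖z - p i‖ < r ∧ sd p i (z, θ) ≠ 0} :=
    ⟨by rw [hrr]; exact hz, hi, hsd⟩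
  have hc : ContinuousAt F z := hF.continuousAt (hopen.mem_nhds hzm)
  refine ⟨F z, fun η hη => ?_⟩
  have h1 : ∀ᶠ z' in 𝓝 z, |F z' - F z| < η := by
    have := (hc.sub_const (F z)).abs
    rw [sub_self, abs_zero] at this
    exact this.eventually_lt_const hη
  obtain ⟨ρ, hρ, hball⟩ := Metric.eventually_nhds_iff.1 (h1.and (hopen.mem_nhds hzm))
  refine ⟨ρ, hρ, ?_⟩
  filter_upwards [hae] with z' h2 h3
  obtain ⟨h4, h5⟩ := hball (show dist z' z < ρ by rw [dist_eq_norm]; exact h3)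
  show |f (z', θ) - F z| ≤ η
  rw [h2 h5.1 h5.2.1]
  exact h4.le

/-- bounded version of a function -/
noncomputable def atn (f : ℂ × ℝ → ℝ) : ℂ × ℝ → ℝ := fun x => Real.arctan (f x)

theorem atn_inv {f : ℂ × ℝ → ℝ} (hI : IsInvariantFun p f) : IsInvariantFun p (atn f) := by
  refine ⟨fun z θ => ?_, fun z θ s h1 h2 => ?_, fun i y hy θ s r h1 h2 h3 h4 => ?_⟩
  · simp only [atn, hI.periodic]
  · simp only [atn, hI.free z θ s h1 h2]
  · simp only [atn, hI.reflect i y hy θ s r h1 h2 h3 h4]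

theorem arctan_lip (a b : ℝ) : |Real.arctan a - Real.arctan b| ≤ |a - b| := by
  have h := Convex.norm_image_sub_le_of_norm_deriv_le (f := Real.arctan) (s := univ) (C := 1)
    (x := b) (y := a) (fun x _ => Real.differentiable_arctan x) (fun x _ => by
      rw [Real.deriv_arctan, Real.norm_eq_abs, abs_of_nonneg (by positivity)]
      rw [div_le_one (by positivity)]
      nlinarith [sq_nonneg x]) convex_univ (mem_univ _) (mem_univ _)
  rw [one_mul] at h
  exact h

theorem atn_mod {f : ℂ × ℝ → ℝ} {q ε C r : ℝ} (hq : 1 ≤ q) (h : Modulus p f q ε C r) :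
    Modulus p (atn f) q ε C r := by
  intro i h0 h1 h2
  refine le_trans ?_ (h i h0 h1 h2)
  refine lintegral_mono fun x => ?_
  refine ENNReal.ofReal_le_ofReal ?_
  exact Real.rpow_le_rpow (abs_nonneg _) (arctan_lip _ _) (by linarith)

theorem main_mod (hSPR : S_SPR) (hVL : S_VL) (hVC : S_VC) (hVAL : S_VAL) (hFIN : S_FIN)
    (hMOD : S_MOD) (hp : IsConvexPolygon p) (hirr : ∀ i, Irrational (ang p i / π))
    {f : ℂ × ℝ → ℝ} (hf : Measurable f) (hI : IsInvariantFun p f) {q ε C r : ℝ} (hq : 1 ≤ q)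
    (hε : 0 < ε) (hC : 0 ≤ C) (hr : 0 < r) (h : Modulus p f q ε C r) :
    ∃ a : ℝ, ∀ᵐ x : ℂ × ℝ, x.1 ∈ region p → f x = a := by
  have hm : Measurable (atn f) := Real.measurable_arctan.comp hf
  have hb : ∀ x, |atn f x| ≤ 2 := by
    intro x
    have h1 := Real.arctan_lt_pi_div_two (f x)
    have h2 := Real.neg_pi_div_two_lt_arctan (f x)
    have h3 := Real.pi_lt_four
    show |Real.arctan (f x)| ≤ 2
    rw [abs_le]
    constructor <;> linarith
  obtain ⟨a, ha⟩ := main hSPR hVL hVC hVAL hFIN hp hirr hm (atn_inv hI) hr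
    (hMOD n p hp (atn f) hm hb (atn_inv hI) q ε C r hq hε hC hr (atn_mod hq h))
  refine ⟨Real.tan a, ?_⟩
  filter_upwards [ha] with x hx h1
  rw [← hx h1]
  exact (Real.tan_arctan (f x)).symm

end Pool.Agent.Q75.BS
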