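import Pool.Agent.TH103.BL.Fun
import Pool.Agent.TH103.BL.Fin
import Pool.Agent.W12.BB.Fan
import Pool.Agent.W12.BB.Unif
import Pool.Agent.W345.BB.Exist
import Pool.Agent.W973.BB.Rev
import Pool.Agent.W108.BB.Uniq
import Pool.Agent.W762.BB.Open
import Pool.Agent.W327.BB.Alt

set_option autoImplicit false

/-!
# Project BS (helper75): billiards in convex polygons, invariant functions which are continuous in
the position near the vertices, for almost every direction

Row MP_7bc51d_an.  Library: namespaces `Pool.Agent.W780.PG`, `Pool.Agent.W780.BB` (region, `reg`,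
`sf`, `rf`, `fp`, `fd`, `uf`, `Ch`, `VK`, statements `S_...` in `Pool/Agent/W780/BB/Stm.lean`, all
proved), `Pool.Agent.TH103.BL` (`IsInvariantFun`, `sd`, `sl`, `Orb`, `srcs`, `angs`, `ps`, `tp`,
`allz`, `inv_fun`, `ch_of`, ...).

The whole proof.  Let `f` be invariant, all angles irrational.  Suppose that for almost every
direction `θ` the slice `f (·, θ)` has an (essential) limit at every point near a vertex, off the
line through the vertex in the direction `θ`.  By the flow (every orbit comes close to a vertex)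
it has a limit at EVERY point of the region (S_SPR).  Hence it has a limit at every vertex (S_COR:
near a vertex the itinerary of the passage around the corner only depends on the side; S_VL).  The
limits at a vertex are invariant under the two reflections, hence constant, `c j` (S_RL, S_VC).
If a slice has at `z` a limit different from all `c j`, then the same holds on a ball, and no orbit
starting in this ball can hit a vertex (S_HIT), so the whole ball moves rigidly forever (S_FOL), which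
contradicts the fact that the orbit of `z` comes close to vertices (`allz`).  So all limits are among
the `c j` (S_VAL), and since the region is connected `f` is constant (S_FIN).  The hypothesis follows
from an estimate of the modulus of continuity in the direction (S_APX, S_ONE, S_MOD).
-/

namespace Pool.Agent.Q75.BS

open Complex Set MeasureTheory Filter Topology Pool.Agent.W780.PG Pool.Agent.W780.BB
open Pool.Agent.TH103.BL

open scoped Real ComplexConjugate

/-- the slice of `f` in the direction `θ` -/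
def sli (f : ℂ × ℝ → ℝ) (θ : ℝ) : ℂ → ℝ := fun z => f (z, θ)

/-- `g` has the essential limit `c` at `z` -/
def Lim (g : ℂ → ℝ) (z : ℂ) (c : ℝ) : Prop :=
  ∀ η : ℝ, 0 < η → ∃ ρ : ℝ, 0 < ρ ∧ ∀ᵐ z' : ℂ, ‖z' - z‖ < ρ → |g z' - c| ≤ η

/-- `g` has the essential limit `c` at the vertex `p i`, from inside the region -/
def VLim {n : ℕ} (p : Fin (n + 3) → ℂ) (g : ℂ → ℝ) (i : Fin (n + 3)) (c : ℝ) : Prop :=
  ∀ η : ℝ, 0 < η → ∃ ρ : ℝ, 0 < ρ ∧ ∀ᵐ z : ℂ, z ∈ reg p → ‖z - p i‖ < ρ → |g z - c| ≤ η

/-- all slices have limits in the whole region -/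
def LimAll {n : ℕ} (p : Fin (n + 3) → ℂ) (f : ℂ × ℝ → ℝ) : Prop :=
  ∀ᵐ θ : ℝ, ∀ z ∈ reg p, ∃ c, Lim (sli f θ) z c

/-- the slices have limits near the vertices, off the lines through the vertices -/
def LimNear {n : ℕ} (p : Fin (n + 3) → ℂ) (f : ℂ × ℝ → ℝ) (r : ℝ) : Prop :=
  ∀ᵐ θ : ℝ, ∀ z ∈ reg p, ∀ i, ‖z - p i‖ < r → sd p i (z, θ) ≠ 0 → ∃ c, Lim (sli f θ) z c

/-- JOB SPR.  Limits near the vertices spread to the whole region.

Proof: adapt `loc_fwd`, `rev_inv`, `loc_bwd`, `no_diag`, `loc_all` of `Pool/Agent/TH103/BL/Loc.lean`.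
Good `θ`: (1) for every word `w` the direction `(fd p w (0, θ)).2 = e θ + c` (`e = ± 1`, statement
`hR`, the number `c` depends on `w` only) has the property of `LimNear` (the map `θ ↦ e θ + c` is
measure preserving, there are countably many words); (2) `allz` for `ε = 1 / (m + 1)`, all `m`.
Forward case: `z ∈ reg p` whose forward ray meets no unfolded vertex (hypothesis of `loc_fwd`); take
the orbit (`exists_orb`), `d > 0` with `d ≤ ‖z - p j‖` for all `j`, `ε < min r (d / 2)`, and
`K, s, j` from `allz`; as in `loc_fwd`, `s > ε` and `sd p j (ps p z θ u K s, angs p θ u K) ≠ 0` (the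
vertex is neither ahead nor behind).  With `w = (List.range K).map u`, `fd_word`, `orb_ch`: by (1)
there is `c` with `Lim (sli f (angs p θ u K)) (ps p z θ u K s) c`.  For `z'` near `z` the chain
condition `Ch p w z' (z' + s • dir θ)` holds (`Pool.Agent.W762.BB.open_it`), so by `inv_fun`
`f (z', θ) = f (fd p w (z' + s • dir θ, θ)) = f (fp p w (z' + s • dir θ), angs p θ u K)`, and
`z' ↦ fp p w (z' + s • dir θ)` is a measure preserving isometry mapping `z` to `ps p z θ u K s`
(it is a rotation or reflection composed with a translation; null sets have null preimages).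
Hence `Lim (sli f θ) z c`.  Backward case: time reversal (`rev_inv`, `sd_pi`), as in `loc_bwd`;
`no_diag`: for almost every `θ` every `z` is in one of the two cases. -/
def S_SPR : Prop := ∀ (n : ℕ) (p : Fin (n + 3) → ℂ), IsConvexPolygon p →
  ∀ f : ℂ × ℝ → ℝ, IsInvariantFun p f → ∀ r : ℝ, 0 < r → LimNear p f r → LimAll p f

/-- JOB COR.  Passage around a corner: on each side of the line through the vertex the itinerary is
constant.

Proof.  `K` from `S_Exist` with `T = 1` (`Pool.Agent.W345.BB.exist ...`, see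
`Pool/Agent/W780/BB/Final0.lean` for how all the library statements `S_Exist, S_Gen, S_Uniq, S_Rev,
S_Open, S_Ref` are obtained, and `Final.lean` for `S_Fan`).
Good `φ` (almost all): (a) for every word `w`, every `m : ℕ`, all `i j`:
`sf p j (fp p w (p i + (1 / (m + 1)) • dir φ)) ≠ 0` (for fixed `w, m, i, j` this is
`A + (1/(m+1)) * sl p j (e φ + c) = 0`, `A = sf p j (fp p w (p i))`, which holds for countably many `φ`
only: `sl_eq`, `sin x = a` has countably many solutions);
(b) for every `m`, almost every `z`: the conditions of `S_Gen` for `(z, φ)`, `T = 1 / (m + 1)`.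
Fix such `φ`, `i`, `σ`, and let some `z ∈ reg p` have `0 < σ * sd p i (z, φ)`.  The set
`VK p (2 K)` is finite: choose `m` with `δ = 1 / (m + 1)` such that its only point in the ball of radius
`3 δ` around `p i` is `p i` (there may be several words giving `p i`).  Let `A₀ = p i + δ • dir φ`,
`κ = min |sf p j (fp p w A₀)| > 0` over the words of length `≤ K` and `j`, `D` a bound of all side
lengths, and `ρ < δ / 2`, `D ρ < κ`.
By scaling towards the vertex (`scale_in`, `sd_line`, `sd_vertex`) the open set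
`Q = {z ∈ reg p, ‖z - p i‖ < ρ, 0 < σ * sd p i (z, φ)}` is nonempty, so it contains generic points.
For generic `z₁, z₂ ∈ Q` let `A_k = z_k + δ • dir φ`, `Ch p w_k z_k A_k`, `w_k.length ≤ K` (S_Exist).
All points of the convex hull of `z₁, z₂, A₁, A₂` have `0 < σ * sd p i (·, φ)` (`sd` is affine in the
position and does not change along `dir φ`) and distance `< 2 δ` from `p i`, so the hull contains no
point of `VK p (2 K)`.  By `S_Fan`: `Ch p w₁ z₂ A₁`.  By `S_Rev`: `Ch p w₁.reverse (fp p w₁ A₁)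
(fp p w₁ z₂)`.  The point `fp p w₁ A₂` is in `reg p`: `|sf p j (fp p w₁ A₂) - sf p j (fp p w₁ A₀)| ≤ D ρ
< κ` and the same for `A₁`, and `sf p j (fp p w₁ A₁) > 0`, so `sf p j (fp p w₁ A₀) ≥ κ`.  The triangle
`fp p w₁ z₂, fp p w₁ A₁, fp p w₁ A₂` contains no point of `VK p K`, because
`uf p w₁ (uf p w' (p k)) = uf p (w₁ ++ w') (p k)` would be in the hull.  By `S_Fan` again
`Ch p w₁.reverse (fp p w₁ A₂) (fp p w₁ z₂)`, by `S_Rev` again `Ch p w₁ z₂ A₂`
(`Pool.Agent.W973.BB.fp_reverse` or similar in `Pool/Agent/W973/BB/Rev.lean`), and `w₂ = w₁` by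
`S_Uniq`.  Take `w = w₁`; `fp p w A₀ ∈ reg p` was shown above. -/
def S_COR : Prop := ∀ (n : ℕ) (p : Fin (n + 3) → ℂ), IsConvexPolygon p → ∀ᵐ φ : ℝ,
  ∀ (i : Fin (n + 3)) (σ : ℝ), (σ = 1 ∨ σ = -1) → (∃ z ∈ reg p, 0 < σ * sd p i (z, φ)) →
    ∃ (w : List (Fin (n + 3))) (δ ρ : ℝ), 0 < δ ∧ 0 < ρ ∧ fp p w (p i + δ • dir φ) ∈ reg p ∧
      ∀ᵐ z : ℂ, z ∈ reg p → ‖z - p i‖ < ρ → 0 < σ * sd p i (z, φ) → Ch p w z (z + δ • dir φ)

/-- JOB VL.  Limits at the vertices.  Premise: `S_COR`.

Proof.  Good `φ`: the conclusion of `S_COR`; for every word `w` the direction `(fd p w (0, φ)).2`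
(`= e φ + c`, `hR`) has the property of `LimAll`.
One side: let `σ` be a sign for which `Q_σ = {z ∈ reg p, 0 < σ * sd p i (z, φ)}` is nonempty; `w, δ, ρ`
from `S_COR`, `B₀ = fp p w (p i + δ • dir φ) ∈ reg p`, `ψ = (fd p w (0, φ)).2`, `c_σ` the limit of
`sli f ψ` at `B₀`.  For `η > 0` let `ρ₁` be the radius for `Lim`.  For almost every `z ∈ Q_σ` with
`‖z - p i‖ < min ρ ρ₁`: `f (z, φ) = f (fd p w (z + δ • dir φ, φ)) = f (fp p w (z + δ • dir φ), ψ)`
(`inv_fun`), `‖fp p w (z + δ • dir φ) - B₀‖ = ‖z - p i‖ < ρ₁` (`hR`: isometry), so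
`|f (z, φ) - c_σ| ≤ η` (the map `z ↦ fp p w (z + δ • dir φ)` is measure preserving).
If only one side is nonempty, `c = c_σ` (almost every `z` has `sd p i (z, φ) ≠ 0`, `sd_ae`, swapped).
If both are nonempty then `c_1 = c_{-1}`: as in `sides_agree` (`Pool/Agent/TH103/BL/Fun.lean`), for
every `η` there is a point `y ∈ reg p` arbitrarily close to `p i` with `sd p i (y, φ) = 0`; the limit
at `y` is within `2 η` of both (points on both sides arbitrarily close to `y`). -/
def S_VL : Prop := ∀ (n : ℕ) (p : Fin (n + 3) → ℂ), IsConvexPolygon p →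
  ∀ f : ℂ × ℝ → ℝ, IsInvariantFun p f → LimAll p f → ∀ᵐ θ : ℝ, ∀ i, ∃ c, VLim p (sli f θ) i c

/-- JOB RL.  The reflection law at a vertex, for one direction.

Proof: adapt `refl_aux` of `Pool/Agent/TH103/BL/Vtx.lean` (there `θ` is fixed after the line
`filter_upwards [hsw, hsw2] with θ hQ1 hQ2 hsl`; here `hQ1`, `hQ2` come from the two hypotheses with the
same `η`, `r` the smaller radius, and the point `y0` of the side is chosen afterwards).  Result
`|c₁ - c₂| ≤ 2 η` for every `η > 0`. -/
def S_RL : Prop := ∀ (n : ℕ) (p : Fin (n + 3) → ℂ), IsConvexPolygon p →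
  ∀ f : ℂ × ℝ → ℝ, IsInvariantFun p f → ∀ i a : Fin (n + 3), (i = a ∨ i = a + 1) →
  ∀ θ : ℝ, sl p a θ < 0 → ∀ c₁ c₂ : ℝ, VLim p (sli f θ) i c₁ →
    VLim p (sli f (2 * tau p a - θ)) i c₂ → c₁ = c₂

/-- JOB VC.  The limits at a vertex with irrational angle are constant.  Premise: `S_RL`.

Proof: see `refl_law`, `vertex_const` of `Pool/Agent/TH103/BL/Vtx.lean`.  For rational (or real) `x`
let `Θ x = {θ | ∃ m : ℕ, ∀ᵐ z, z ∈ reg p → ‖z - p i‖ < 1 / (m + 1) → f (z, θ) < x}`.  It is measurable
(countable union of sets where a measurable function of `θ`, the volume of a slice of a measurable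
set, vanishes), exactly `2 π`-periodic (`hI.periodic`), and, if `c θ` is the limit, `c θ < x` implies
`θ ∈ Θ x`, which implies `c θ ≤ x`.  So `Θ' x = ⋃ (q : ℚ, q < x), Θ q` is almost everywhere
`{θ | c θ < x}`.  The limit `c θ` is invariant under `θ ↦ 2 τ_a - θ`, `a = i` and `a = i - 1`, almost
everywhere (`S_RL` if `sl p a θ < 0`, otherwise apply it to `2 τ_a - θ`, `sl_refl`, `ae_sl`).  By
`Pool.Agent.W363.BB.rot` (with `a = tau p i`, `b = tau p (i - 1)`, irrationality as in
`vertex_const`) each `Θ' x` is null or conull.  The constant is `c = sInf {x | Θ' x conull}` (the set is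
nonempty and bounded below because `c θ` is a real number for almost every `θ`).
Alternatively replace `f` by `arctan ∘ f`, take averages over `reg p ∩ ball (p i) (1/(m+1))`, their
limit superior as a measurable periodic function, and use `vertex_const`'s argument. -/
def S_VC : Prop := ∀ (n : ℕ) (p : Fin (n + 3) → ℂ), IsConvexPolygon p →
  ∀ f : ℂ × ℝ → ℝ, Measurable f → IsInvariantFun p f → ∀ i, Irrational (ang p i / π) →
  (∀ᵐ θ : ℝ, ∃ c, VLim p (sli f θ) i c) → ∃ c, ∀ᵐ θ : ℝ, VLim p (sli f θ) i c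

/-- JOB HIT.  A state whose orbit hits a vertex has the limit of the vertex.

Proof.  Given `η`, let `ρ₀` be the radius of `VLim` for `η`.  Choose `s' < s` with `s - s' < ρ₀ / 2` and
`Ch p w z (z + s' • dir θ)`.  For `z'` near `z`: `Ch p w z' (z' + s' • dir θ)`
(`Pool.Agent.W762.BB.open_it`), so `f (z', θ) = f (fd p w (z' + s' • dir θ, θ))` (`inv_fun`), the
position `fp p w (z' + s' • dir θ)` is in `reg p` (`ch_mem`) and closer than `ρ₀` to `p j` (isometry,
`hR`), the direction is `e θ + c = (fd p w (z + s • dir θ, θ)).2` (`hR`).  Null sets have null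
preimages under `z' ↦ fp p w (z' + s' • dir θ)`. -/
def S_HIT : Prop := ∀ (n : ℕ) (p : Fin (n + 3) → ℂ), IsConvexPolygon p →
  ∀ f : ℂ × ℝ → ℝ, IsInvariantFun p f →
  ∀ (w : List (Fin (n + 3))) (z : ℂ) (θ s : ℝ) (j : Fin (n + 3)) (c : ℝ), z ∈ reg p →
    fp p w (z + s • dir θ) = p j → (∀ᶠ s' in 𝓝[<] s, Ch p w z (z + s' • dir θ)) →
    VLim p (sli f (fd p w (z + s • dir θ, θ)).2) j c → Lim (sli f θ) z c

/-- JOB FOL.  If no orbit starting in the ball, in the same direction, hits a vertex along the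
itinerary of the centre, then the whole ball follows the itinerary, and the orbit of the centre
stays at distance at least `ρ` from the vertices.

Proof.  For `z' ∈ ball z ρ` put `X_k = srcs p z' u k`, `φ_k = angs p θ u k` (independent of `z'`) and
`τ_k = - sf p (u k) X_k / sl p (u k) φ_k`, the time when the ray `X_k + s • dir φ_k` meets the line of
side `u k` (`sl p (u k) φ_k < 0` by `sl_neg`); `τ_k` is continuous in `z'`.  Claim, by induction on `K`,
for all `z' ∈ ball z ρ` simultaneously: for all `k < K`, `X_k + τ_k • dir φ_k ∈ side p (u k)`, and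
`0 < τ_0 < τ_1 < ... < τ_(K-1)`.
Step: put `b = τ_(K-1)` (`b = 0` if `K = 0`), `X = X_K`, `φ = φ_K`.  The point `X + b • dir φ` is in
`side p (u (K-1))` (`rf_fix`) and `0 < sl p (u (K-1)) φ` (`pt_zero_next`), or it is `z' ∈ reg p`.  So just
after `b` the ray is in `reg p`.  As in the proof of `step` (`Pool/Agent/TH103/BL/Orb.lean`) there is an
exit time `s₁ > b`, with the ray in `reg p` between, and `X + s₁ • dir φ ∈ creg p` with some
`sf p i (X + s₁ • dir φ) = 0`.  If the exit point is a vertex `p j`, then the hypothesis is violated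
for `z'`, `K`, `s₁`, `j` (`fd_word`; `Ch` for `s' ∈ (b, s₁)` by `ch_of`).  Otherwise it is in the open
side `i`.  Let `Λ_i` be the set of `z' ∈ ball z ρ` for which the exit is through the open side `i`,
i.e. `sl p i φ < 0`, the point of the ray at the time `τ^i = - sf p i X / sl p i φ` is in `side p i`, and
`τ^i > b`: these sets are open (`Pool.Agent.W82.BB.mem_side`: being in the open side means
`sf p i = 0` and `sf p j > 0` for `j ≠ i`), pairwise disjoint (if `τ^i < τ^j` then `sf p i < 0` at the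
time `τ^j`), and cover the ball, which is connected; `z ∈ Λ_(u K)` (from `Orb`, where `t K` equals
`τ_K` for the centre).  So all of the ball is in `Λ_(u K)`.
Now let `tp t K < s < t K` and `‖ps p z θ u K s - p j‖ < ρ`.  Put `w = (List.range K).map u` and
`z' = uf p w (p j) - s • dir θ`; then `fp p w (z' + s • dir θ) = p j`, and `‖z' - z‖ < ρ` (`hR`: `fp` is an
isometry; `fd_word`).  With the notation above, `X + s • dir φ = p j ∈ creg p`, so `sf p (u K) ≥ 0`
gives `s ≤ τ_K`, and `sf p (u (K-1)) ≥ 0` gives `s ≥ τ_(K-1)` (for `K = 0`: `s > 0`, `z' ∈ reg p`).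
The two end points are in open sides (or in `reg p`), so they are not `p j`; strictly between them the
ray is in `reg p` (the functions `sf p i` are affine on it, `≥ 0` at both ends and not both zero,
because `u K ≠ u (K-1)`, `u_ne`), but `p j ∉ reg p`.  Contradiction. -/
def S_FOL : Prop := ∀ (n : ℕ) (p : Fin (n + 3) → ℂ), IsConvexPolygon p →
  ∀ (z : ℂ) (θ : ℝ) (u : ℕ → Fin (n + 3)) (t : ℕ → ℝ), Orb p z θ u t → ∀ ρ : ℝ, 0 < ρ →
  Metric.ball z ρ ⊆ reg p →
  (∀ z' ∈ Metric.ball z ρ, ∀ (K : ℕ) (s : ℝ) (j : Fin (n + 3)), 0 < s →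
    fp p ((List.range K).map u) (z' + s • dir θ) = p j →
    ¬ (∀ᶠ s' in 𝓝[<] s, Ch p ((List.range K).map u) z' (z' + s' • dir θ))) →
  ∀ (K : ℕ) (s : ℝ) (j : Fin (n + 3)), tp t K < s → s < t K → ρ ≤ ‖ps p z θ u K s - p j‖

/-- JOB VAL.  The limits of the slices are among the values at the vertices.  Premises: `S_FOL`,
`S_HIT`.

Proof.  Good `θ`: the property of `LimAll`; for every word `w` and every `j`:
`VLim p (sli f (fd p w (0, θ)).2) j (c j)` (directions `e θ + c'`, `hR`, measure preserving);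
`allz` with `ε = 1 / (m + 1)` for all `m`; almost every `z ∈ reg p` satisfies `Ok p z θ 0` (`hb` in the
proof of `allz`, `Pool/Agent/TH103/BL/Ch.lean`).
First let `z ∈ reg p` with `Ok p z θ 0`, orbit `u, t` (`exists_orb`), and let `a` be the limit at `z`.
Suppose `a ≠ c j` for all `j`, `δ = min |a - c j| > 0`.  There is `ρ > 0` with `ball z ρ ⊆ reg p` and
`|f (z', θ) - a| ≤ δ / 4` for almost every `z' ∈ ball z ρ`.  The hypothesis of `S_FOL` holds: if some
`z' ∈ ball z ρ` hits a vertex `p j` then `Lim (sli f θ) z' (c j)` by `S_HIT`, so near `z'` both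
`|f - c j| ≤ δ / 4` and `|f - a| ≤ δ / 4` almost everywhere, contradiction.  So by `S_FOL` the orbit of
`z` stays at distance `≥ ρ` from the vertices, contradicting `allz` with `1 / (m + 1) < ρ`.
Now let `z ∈ reg p` be arbitrary with limit `a ≠ c j` for all `j`, `δ`, `ρ` as above; choose
`z' ∈ ball z ρ` with `Ok p z' θ 0` (almost every point is); by the first part its limit is some `c j`,
and near `z'` both `|f - c j| ≤ δ / 4` and `|f - a| ≤ δ / 4` almost everywhere, contradiction. -/
def S_VAL : Prop := ∀ (n : ℕ) (p : Fin (n + 3) → ℂ), IsConvexPolygon p →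
  ∀ f : ℂ × ℝ → ℝ, IsInvariantFun p f → LimAll p f → ∀ c : Fin (n + 3) → ℝ,
  (∀ j, ∀ᵐ θ : ℝ, VLim p (sli f θ) j (c j)) →
  ∀ᵐ θ : ℝ, ∀ z ∈ reg p, ∃ j, Lim (sli f θ) z (c j)

/-- JOB FIN.  Conclusion.

Proof.  Good `θ`: both properties.  For `v` in the finite range of `c` let `U_v` be the set of
`z ∈ reg p` with `Lim (sli f θ) z v`.  These sets are open (if the limit at `z` is `v`, the limits at
all near points are within small distance of `v` and in the finite range of `c`), disjoint, and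
cover the connected set `reg p` (convex, nonempty).  So there is `v` with `Lim (sli f θ) z v` for all
`z ∈ reg p`.  For each `j`, `v = c j`: for `η > 0` there are points `z ∈ reg p` closer to `p j` than the
radius of `VLim`, and near such a `z` both `|f - v| ≤ η` and `|f - c j| ≤ η` almost everywhere.  So
`v = c 0` for almost every `θ`.  Finally `f (z, θ) = c 0` for almost every `z ∈ reg p`: for each
`η = 1/(m+1)`, every point of `reg p` has a neighbourhood in which `|f - c 0| ≤ η` almost everywhere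
(`measure_null_of_locally_null` or a countable cover).  Conclude with the measurability of
`{x | x.1 ∈ region p → f x = c 0}` and Fubini (`region_eq : region p = reg p`). -/
def S_FIN : Prop := ∀ (n : ℕ) (p : Fin (n + 3) → ℂ), IsConvexPolygon p →
  ∀ f : ℂ × ℝ → ℝ, Measurable f → ∀ c : Fin (n + 3) → ℝ,
  (∀ᵐ θ : ℝ, ∀ z ∈ reg p, ∃ j, Lim (sli f θ) z (c j)) →
  (∀ j, ∀ᵐ θ : ℝ, VLim p (sli f θ) j (c j)) →
  ∃ a : ℝ, ∀ᵐ x : ℂ × ℝ, x.1 ∈ region p → f x = a

/-! ### The modulus of continuity in the direction -/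

/-- near each vertex `p i` (closer than `r`), the `L^q` modulus of continuity of `f` in the direction is
`O (h ^ (1 + ε))`, not counting the states for which the line through the vertex is crossed when the
direction is turned by `h` -/
def Modulus {n : ℕ} (p : Fin (n + 3) → ℂ) (f : ℂ × ℝ → ℝ) (q ε C r : ℝ) : Prop :=
  ∀ (i : Fin (n + 3)) (h : ℝ), 0 < h → h < 1 →
    ∫⁻ x in {x : ℂ × ℝ | x.1 ∈ region p ∧ ‖x.1 - p i‖ < r ∧ x.2 ∈ Ico 0 (2 * π) ∧
        0 < sd p i x * sd p i (x.1, x.2 + h)},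
      ENNReal.ofReal (|f (x.1, x.2 + h) - f x| ^ q) ≤ ENNReal.ofReal (C * h ^ (1 + ε))

/-- JOB APX.  From the direction to the transversal position.

Proof.  Let `0 < σ < s₀ := b / 4 * min 1 b` and `h = arcsin (σ / b)`, so that `b sin h = σ`,
`0 < h ≤ (π / 2) σ / b < min 1 b`.
Fix `θ`, `|θ - θ₀| < b`, and `w = x + i t` with `|x| < b`, `|t| < b`; put `z = z₀ + w * dir θ`
(`‖z - z₀‖ < 2 b`), `a = z - b • dir θ`, `z' = a + b • dir (θ + h)`; all these points and the segments
between them are in `ball z₀ (4 b) ⊆ reg p`.  Then `z + σ • (I * dir θ) = z' + (b (1 - cos h)) • dir θ`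
(`minus_formula` of `Pool/Agent/W780/BB/Main.lean`), so `f (z + σ • (I * dir θ), θ) = f (z', θ)`,
`f (z', θ + h) = f (a, θ + h)`, `f (z, θ) = f (a, θ)` (`hI.free`).  Hence
`|f (z + σ • (I * dir θ), θ) - f (z, θ)| ≤ |f (z', θ + h) - f (z', θ)| + |f (a, θ + h) - f (a, θ)|`, and the
`q`-th power is at most `2 ^ (q - 1)` (or `2 ^ q`) times the sum of the `q`-th powers.  Integrate over
`|x| < b, |t| < b` and `|θ - θ₀| < b`: the left side does not depend on `x` (`hI.free` again:
`z = (z₀ + t • (I * dir θ)) + x • dir θ`), which gives `2 b` times the integral of the claim.  On the right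
side change variables `(w, θ) ↦ (z', θ)` and `(w, θ) ↦ (a, θ)` (for fixed `θ` a rotation about `z₀` and a
translation: measure preserving) and note that `(z', θ)`, `(a, θ)` are in the domain of integration
of `Modulus` (the sign of `sd p i` does not change between `θ` and `θ + h`).  So the claim holds with
`C' = 2 ^ (q + 1) * C * ((π / 2) / b) ^ (1 + ε) / (2 b)` or any larger number. -/
def S_APX : Prop := ∀ (n : ℕ) (p : Fin (n + 3) → ℂ), IsConvexPolygon p →
  ∀ f : ℂ × ℝ → ℝ, Measurable f → IsInvariantFun p f → ∀ q ε C r : ℝ, 1 ≤ q → 0 < ε → 0 ≤ C →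
  Modulus p f q ε C r → ∀ (i : Fin (n + 3)) (z₀ : ℂ) (θ₀ b κ : ℝ), 0 < b →
    Metric.ball z₀ (4 * b) ⊆ reg p → Metric.ball z₀ (4 * b) ⊆ Metric.ball (p i) r →
    (∀ z ∈ Metric.ball z₀ (4 * b), ∀ θ : ℝ, |θ - θ₀| < 4 * b → 0 < κ * sd p i (z, θ)) →
    (∀ θ : ℝ, |θ - θ₀| < b → θ ∈ Ico 0 (2 * π)) →
    ∃ s₀ C' : ℝ, 0 < s₀ ∧ ∀ σ : ℝ, 0 < σ → σ < s₀ →
      ∫⁻ θ in Ioo (θ₀ - b) (θ₀ + b), ∫⁻ t in Ioo (-b) b,
        ENNReal.ofReal (|f (z₀ + (t + σ) • (I * dir θ), θ) - f (z₀ + t • (I * dir θ), θ)| ^ q) ≤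
          ENNReal.ofReal (C' * σ ^ (1 + ε))

/-- JOB ONE.  A one-dimensional Campanato lemma (purely real analysis).

Proof.  Let `E` be the (finite) integral.  For an interval `J = (y, y + s) ⊆ (-b, b)`, `s < s₀`, let
`A s y` be the average of `φ` over `J` (`φ` is bounded, hence integrable).  Then
`|A s y - A (s/2) y| ≤ (2 / s²) ∫∫_(J × J) |φ x - φ x'| ≤ (4 / s²) ∫_0^s ∫_(t, t + σ ∈ J) |φ (t + σ) - φ t| dt dσ`
`≤ (4 / s²) (s²)^(1 - 1/q) (∫_0^s ∫ |φ (t + σ) - φ t|^q dt dσ)^(1/q) ≤ 4 s^(-2/q) (s^(2 + ε) E)^(1/q)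
= 4 E^(1/q) s^(ε/q)` (Hölder; `σ ^ (-(2 + ε)) ≥ s ^ (-(2 + ε))` for `σ ≤ s`).  So on `[-b/2, b/2]` the
continuous functions `y ↦ A (s₁ / 2^k) y` (`s₁ < min s₀ (b / 4)`) converge uniformly (geometric series) to
a continuous function `ψ`, and by the Lebesgue differentiation theorem they converge to `φ` almost
everywhere (`VitaliFamily`/`IsUnifLocDoublingMeasure.ae_tendsto_average`, or differentiate the
primitive of `φ`: `MeasureTheory`'s theorem on the derivative of the integral of a locally integrable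
function; intervals `(y, y + s)` one-sided). -/
def S_ONE : Prop := ∀ (φ : ℝ → ℝ) (q ε b s₀ : ℝ), Measurable φ → (∀ t, |φ t| ≤ 2) → 1 ≤ q → 0 < ε →
  0 < b → 0 < s₀ →
  ∫⁻ σ in Ioo 0 s₀, ENNReal.ofReal (σ ^ (-(2 + ε))) *
    (∫⁻ t in Ioo (-b) b, ENNReal.ofReal (|φ (t + σ) - φ t| ^ q)) < ⊤ →
  ∃ ψ : ℝ → ℝ, ContinuousOn ψ (Icc (-(b / 2)) (b / 2)) ∧
    ∀ᵐ t : ℝ, t ∈ Icc (-(b / 2)) (b / 2) → φ t = ψ t

/-- JOB MOD.  The modulus condition implies limits near the vertices.  Premises: `S_APX`, `S_ONE`.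

Proof.  Local step: `i, z₀, θ₀, b, κ` as in `S_APX`; put `φ_θ t = f (z₀ + t • (I * dir θ), θ)`.  By
`S_APX`, Tonelli and `∫_0^(s₀) σ^(-(2 + ε/2)) σ^(1 + ε) dσ < ∞`, for almost every `θ ∈ (θ₀ - b, θ₀ + b)`
the hypothesis of `S_ONE` holds with `ε / 2` instead of `ε`; so `φ_θ = ψ_θ` almost everywhere on
`[-b/2, b/2]`.  For `z ∈ ball z₀ (b / 2)` let `t z = Im (conj (dir θ) * (z - z₀))`, `|t z| < b / 2`; then
`z = (z₀ + t z • (I * dir θ)) + x • dir θ`, so `f (z, θ) = φ_θ (t z)` (`hI.free`), hence for almost every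
`z'` near `z`, `f (z', θ) = ψ_θ (t z')` (null sets of reals have null preimages under `t`), and
`Lim (sli f θ) z (ψ_θ (t z))` by continuity.
Global step: the set of `(z, θ)` with `z ∈ reg p`, `‖z - p i‖ < r`, `sd p i (z, θ) ≠ 0`, `0 < θ < 2 π` is
open, and covered by countably many sets `ball z₀ (b/2) × (θ₀ - b, θ₀ + b)` as above (`z₀`, `θ₀`, `b`
rational, `κ = ± 1`).  So for almost every `θ ∈ (0, 2 π)` the property of `LimNear` holds; for all `θ`
by periodicity (`hI.periodic`, `dir_periodic`). -/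
def S_MOD : Prop := ∀ (n : ℕ) (p : Fin (n + 3) → ℂ), IsConvexPolygon p →
  ∀ f : ℂ × ℝ → ℝ, Measurable f → (∀ x, |f x| ≤ 2) → IsInvariantFun p f → ∀ q ε C r : ℝ, 1 ≤ q →
  0 < ε → 0 ≤ C → 0 < r → Modulus p f q ε C r → LimNear p f r

end Pool.Agent.Q75.BS
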